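import Pool.Agent.H501Z.Luz.Defs
import Pool.Agent.H501Z.Luz.Main

set_option autoImplicit false

namespace Pool.Agent.Results.MP_10f401_gt.ALuzinProductCH

open Pool.Agent.H501Z.Luz

/-- Under the continuum hypothesis, and more generally if `cov(M) = d` and this cardinal is
regular, every `cov(M)`-Luzin set `X` has a partner `Y` all of whose finite powers are
Rothberger and Menger, with `X × Y` not Menger. -/
theorem result
    (h : Cardinal.continuum.{0} = Cardinal.aleph 1 ∨ (covM = domNum ∧ covM.IsRegular))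
    (X : Set Cantor) (hX : IsLuzin covM X) :
    ∃ Y : Set Cantor,
      (∀ k : ℕ, 1 ≤ k → IsRothberger (Fin k → Y) ∧ IsMenger (Fin k → Y)) ∧
        ¬ IsMenger (X × Y) := by
  have h' : covM = domNum ∧ covM.IsRegular := h.elim hyp_of_CH id
  obtain ⟨Y, hY, hXY⟩ := main h'.1 h'.2 X hX
  exact ⟨Y, fun k _ => ⟨hY k, (hY k).menger⟩, hXY⟩

end Pool.Agent.Results.MP_10f401_gt.ALuzinProductCH
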